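import Pool.Agent.Helper865.Sub.Final

/-!
# Search game for a submarine with known starting point: the value for slow hiders

`value r w A` is the maximin probability of ultimate capture `P(r, R, w)`, `R = ‖A‖`
(definitions in `Pool.Agent.Helper865.Sub.Defs`).
-/

set_option autoImplicit false

namespace Pool.Agent.Results.MP_66a317_pr.SlowHider

open Pool.Agent.Helper865.Sub

/-- (1) an upper bound for all parameters, with `t₀ = (R - r) / (1 + w)`;
(2) two-sided bounds by the quantity `x = 2 r / (π R w ^ 2)` for slow hiders, uniformly in `r`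
and `R`; (3) certain capture for slow hiders as soon as `r ≥ 4 π R w ^ 2`. -/
theorem result :
    (∀ (r w : ℝ) (A : Plane), 0 < w → w < 1 → 0 < r → r < ‖A‖ →
      value r w A ≤ ENNReal.ofReal
        ((Real.pi * (r / ((‖A‖ - r) / (1 + w))) ^ 2
            + 2 * r * (1 + w + r / ((‖A‖ - r) / (1 + w))) / ((‖A‖ - r) / (1 + w)))
          / (Real.pi * w ^ 2))) ∧
    (∀ e : ℝ, 0 < e → e < 1 → ∃ w₀ : ℝ, 0 < w₀ ∧ ∀ (w r : ℝ) (A : Plane),
      0 < w → w ≤ w₀ → 0 < r → A ≠ 0 →
        ENNReal.ofReal (1 - Real.exp (-((1 - e) * (2 * r / (Real.pi * ‖A‖ * w ^ 2)))))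
          ≤ value r w A ∧
        value r w A ≤ ENNReal.ofReal ((1 + e) * (2 * r / (Real.pi * ‖A‖ * w ^ 2)))) ∧
    (∀ (w r : ℝ) (A : Plane), 0 < w → w ≤ 1 / 2500 → A ≠ 0 →
      4 * Real.pi * ‖A‖ * w ^ 2 ≤ r → value r w A = 1) :=
  final

end Pool.Agent.Results.MP_66a317_pr.SlowHider
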